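import Pool.Agent.Helper30.UP.St

/-!
# Project UP, module TY: the typical weight of a divisible code
-/

set_option autoImplicit false

noncomputable section

namespace Pool.Agent.Helper51.UP

open Finset Pool.Agent.Helper30.UP
open scoped Classical

private theorem F_eq {c n : ℕ} (s : Fin n → E c) (x : E c) :
    ∑ i ∈ univ.filter (fun i => s i ≠ 0), chi x (s i) = (nz s : ℝ) - 2 * wt s x := by
  have h1 : ∀ i ∈ univ.filter (fun i => s i ≠ 0),
      chi x (s i) = 1 - 2 * (if x ⬝ᵥ s i ≠ 0 then (1 : ℝ) else 0) := by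
    intro i _
    unfold chi
    by_cases h : x ⬝ᵥ s i = 0
    · rw [if_pos h, if_neg (not_not.2 h)]; ring
    · rw [if_neg h, if_pos h]; ring
  have h2 : (univ.filter (fun i => s i ≠ 0)).filter (fun i => x ⬝ᵥ s i ≠ 0) =
      univ.filter (fun i => x ⬝ᵥ s i ≠ 0) := by
    ext i
    simp only [mem_filter, mem_univ, true_and]
    constructor
    · exact fun h => h.2
    · intro h
      refine ⟨?_, h⟩
      intro h0
      rw [h0, dotProduct_zero] at h
      exact h rfl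
  rw [sum_congr rfl h1, sum_sub_distrib, ← mul_sum, sum_const, nsmul_eq_mul, mul_one, sum_boole, h2]
  rfl

private theorem sum_F {c n : ℕ} (s : Fin n → E c) :
    ∑ x : E c, ((nz s : ℝ) - 2 * wt s x) = 0 := by
  rw [← sum_congr rfl fun x _ => F_eq s x, sum_comm]
  refine sum_eq_zero fun i hi => ?_
  rw [sum_chi, if_neg (mem_filter.1 hi).2]

private theorem sum_F2 {c n : ℕ} (s : Fin n → E c) :
    ∑ x : E c, ((nz s : ℝ) - 2 * wt s x) ^ 2 = (2 : ℝ) ^ c * (n2 s : ℕ) := by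
  have h1 : ∀ x : E c, ((nz s : ℝ) - 2 * wt s x) ^ 2 =
      (∑ i ∈ univ.filter (fun i => s i ≠ 0), chi x (s i)) ^ 2 := fun x => by rw [F_eq]
  rw [sum_congr rfl fun x _ => h1 x, parseval_fam]
  congr 3
  ext ⟨i, j⟩
  simp only [mem_filter, mem_product, mem_univ, true_and]
  constructor
  · rintro ⟨⟨h1, _⟩, h3⟩
    exact ⟨h1, h3⟩
  · rintro ⟨h1, h3⟩
    exact ⟨⟨h1, h3 ▸ h1⟩, h3⟩

private theorem n2_eq {c n : ℕ} (s : Fin n → E c) :
    n2 s = ∑ i ∈ univ.filter (fun i => s i ≠ 0), (univ.filter (fun j => s j = s i)).card := by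
  unfold n2
  rw [card_eq_sum_card_fiberwise (f := Prod.fst) (t := univ.filter (fun i => s i ≠ 0))]
  · refine sum_congr rfl fun i hi => ?_
    refine card_bij' (fun p _ => p.2) (fun j _ => (i, j)) ?_ ?_ ?_ ?_
    · rintro ⟨a, b⟩ hp
      simp only [mem_filter, mem_univ, true_and] at hp ⊢
      obtain ⟨⟨_, h2⟩, rfl⟩ := hp
      exact h2.symm
    · intro j hj
      simp only [mem_filter, mem_univ, true_and] at hi hj ⊢
      exact ⟨⟨hi, hj.symm⟩, trivial⟩
    · rintro ⟨a, b⟩ hp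
      simp only [mem_filter, mem_univ, true_and] at hp ⊢
      obtain ⟨_, rfl⟩ := hp
      rfl
    · intro j _
      rfl
  · rintro ⟨a, b⟩ hp
    have hp' := mem_coe.1 hp
    simp only [mem_filter, mem_univ, true_and] at hp'
    exact mem_coe.2 (mem_filter.2 ⟨mem_univ _, hp'.1⟩)

theorem hTY : StTY := by
  intro K c n D s hK hD hn hdiv hmult hne
  have hNpos : (0 : ℝ) < 2 ^ c := by positivity
  have hnz : (nz s : ℝ) ≤ n := by
    have h1 : nz s ≤ n := by
      unfold nz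
      refine (card_filter_le _ _).trans ?_
      simp
    exact_mod_cast h1
  have hnz0 : (0 : ℝ) ≤ nz s := Nat.cast_nonneg _
  have hn0 : (0 : ℝ) ≤ n := Nat.cast_nonneg _
  have hKr : (1 : ℝ) ≤ K := by exact_mod_cast hK
  have hDr : (1 : ℝ) ≤ D := by exact_mod_cast hD
  have hnr : (n : ℝ) ≤ K * D := by exact_mod_cast hn
  -- the bound for n2
  have hn2 : 8 * (K : ℝ) ^ 4 * n2 s ≤ n ^ 2 := by
    rw [n2_eq, Nat.cast_sum, mul_sum]
    calc ∑ i ∈ univ.filter (fun i => s i ≠ 0),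
          8 * (K : ℝ) ^ 4 * ((univ.filter (fun j => s j = s i)).card : ℕ)
        ≤ ∑ i ∈ univ.filter (fun i => s i ≠ 0), (n : ℝ) :=
          sum_le_sum fun i hi => hmult (s i) (mem_filter.1 hi).2
      _ = (nz s : ℝ) * n := by rw [sum_const, nsmul_eq_mul]; rfl
      _ ≤ n ^ 2 := by nlinarith
  have hn20 : (0 : ℝ) ≤ n2 s := Nat.cast_nonneg _
  -- the typical weight
  obtain ⟨k, hk1, hk2⟩ : ∃ k : ℕ, 2 * (D * k) < nz s + D ∧ nz s ≤ 2 * (D * k) + D := by
    refine ⟨(nz s + D - 1) / (2 * D), ?_, ?_⟩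
    · have h1 := Nat.div_mul_le_self (nz s + D - 1) (2 * D)
      have h2 : 2 * (D * ((nz s + D - 1) / (2 * D))) = (nz s + D - 1) / (2 * D) * (2 * D) := by ring
      rw [h2]
      omega
    · have h1 := Nat.lt_div_mul_add (a := nz s + D - 1) (b := 2 * D) (by omega)
      have h2 : 2 * (D * ((nz s + D - 1) / (2 * D))) = (nz s + D - 1) / (2 * D) * (2 * D) := by ring
      rw [h2]
      omega
  set ω := D * k with hω
  have hτ : |(nz s : ℝ) - 2 * ω| ≤ D := by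
    rw [abs_le]
    have h1 : (2 * (ω : ℝ)) < nz s + D := by exact_mod_cast hk1
    have h2 : (nz s : ℝ) ≤ 2 * ω + D := by exact_mod_cast hk2
    constructor <;> linarith
  set S : Finset (E c) := univ.filter (fun x => wt s x ≠ ω) with hS
  have hlast : ∀ x, wt s x ≠ ω → (D : ℝ) ≤ |(nz s : ℝ) - 2 * wt s x| := by
    intro x hx
    obtain ⟨k', hk'⟩ := hdiv x
    have hne : (k' : ℤ) - k ≠ 0 := by
      intro h
      have h2 : k' = k := by omega
      exact hx (by rw [hk', h2])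
    have h1 : (1 : ℝ) ≤ |((k' : ℤ) - k : ℤ)| := by exact_mod_cast Int.one_le_abs hne
    have h2 : (2 * (D : ℝ)) ≤ |2 * (wt s x : ℝ) - 2 * ω| := by
      have e : 2 * (wt s x : ℝ) - 2 * ω = (2 * D) * (((k' : ℤ) - k : ℤ) : ℝ) := by
        rw [hk', hω]
        push_cast
        ring
      rw [e, abs_mul, abs_of_nonneg (by positivity : (0 : ℝ) ≤ 2 * D)]
      have h3 : (1 : ℝ) ≤ |(((k' : ℤ) - k : ℤ) : ℝ)| := by exact_mod_cast Int.one_le_abs hne
      nlinarith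
    have h3 : |2 * (wt s x : ℝ) - 2 * ω| ≤ |(nz s : ℝ) - 2 * ω| + |(nz s : ℝ) - 2 * wt s x| := by
      have e : 2 * (wt s x : ℝ) - 2 * ω = ((nz s : ℝ) - 2 * ω) - ((nz s : ℝ) - 2 * wt s x) := by ring
      rw [e]
      exact abs_sub _ _
    linarith
  have hF2 := sum_F2 s
  have hF1 := sum_F s
  have hcardE : (univ : Finset (E c)).card = 2 ^ c := by rw [card_univ, card_E]
  have hS1 : (S.card : ℝ) * D ^ 2 ≤ n2 s * 2 ^ c := by
    calc (S.card : ℝ) * D ^ 2 = ∑ x ∈ S, (D : ℝ) ^ 2 := by rw [sum_const, nsmul_eq_mul]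
      _ ≤ ∑ x ∈ S, ((nz s : ℝ) - 2 * wt s x) ^ 2 := by
          refine sum_le_sum fun x hx => ?_
          have h1 := hlast x (mem_filter.1 hx).2
          rw [← sq_abs ((nz s : ℝ) - 2 * wt s x)]
          have : (0 : ℝ) ≤ D := by linarith
          nlinarith
      _ ≤ ∑ x : E c, ((nz s : ℝ) - 2 * wt s x) ^ 2 :=
          sum_le_sum_of_subset_of_nonneg (filter_subset _ _) fun x _ _ => sq_nonneg _
      _ = n2 s * 2 ^ c := by rw [hF2]; ring
  have hSK : 8 * (K : ℝ) ^ 2 * S.card ≤ 2 ^ c := by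
    have h1 : (n : ℝ) ^ 2 ≤ (K * D) ^ 2 := by nlinarith
    have h2 : 8 * (K : ℝ) ^ 4 * (S.card * D ^ 2) ≤ (K * D) ^ 2 * 2 ^ c := by
      calc 8 * (K : ℝ) ^ 4 * (S.card * D ^ 2) ≤ 8 * (K : ℝ) ^ 4 * (n2 s * 2 ^ c) :=
            mul_le_mul_of_nonneg_left hS1 (by positivity)
        _ = (8 * (K : ℝ) ^ 4 * n2 s) * 2 ^ c := by ring
        _ ≤ (K * D) ^ 2 * 2 ^ c := mul_le_mul_of_nonneg_right (hn2.trans h1) hNpos.le
    have h3 : 0 < (K : ℝ) ^ 2 * D ^ 2 := by positivity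
    have h4 : (K : ℝ) ^ 2 * D ^ 2 * (8 * (K : ℝ) ^ 2 * S.card) ≤ (K : ℝ) ^ 2 * D ^ 2 * 2 ^ c := by
      have e1 : (K : ℝ) ^ 2 * D ^ 2 * (8 * (K : ℝ) ^ 2 * S.card) =
          8 * (K : ℝ) ^ 4 * (S.card * D ^ 2) := by ring
      have e2 : ((K : ℝ) * D) ^ 2 * 2 ^ c = (K : ℝ) ^ 2 * D ^ 2 * 2 ^ c := by ring
      rw [e1, ← e2]
      exact h2
    exact le_of_mul_le_mul_left h4 h3
  have hSc0 : (0 : ℝ) ≤ S.card := Nat.cast_nonneg _
  have hS8 : 8 * (S.card : ℝ) ≤ 2 ^ c := by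
    have h0 : (1 : ℝ) ≤ (K : ℝ) ^ 2 := by nlinarith
    have h1 : (S.card : ℝ) ≤ (K : ℝ) ^ 2 * S.card := by nlinarith
    linarith
  have hS8' : 8 * S.card ≤ 2 ^ c := by exact_mod_cast hS8
  -- splitting of sums
  have hsplit : ∀ f : ℝ → ℝ, ∑ x : E c, f ((nz s : ℝ) - 2 * wt s x) =
      (2 ^ c - S.card) * f ((nz s : ℝ) - 2 * ω) + ∑ x ∈ S, f ((nz s : ℝ) - 2 * wt s x) := by
    intro f
    rw [← sum_filter_add_sum_filter_not univ (fun x => wt s x ≠ ω), add_comm]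
    congr 1
    have h1 : ∀ x ∈ univ.filter (fun x => ¬ wt s x ≠ ω), f ((nz s : ℝ) - 2 * wt s x) =
        f ((nz s : ℝ) - 2 * ω) := by
      intro x hx
      rw [mem_filter, not_not] at hx
      rw [hx.2]
    rw [sum_congr rfl h1, sum_const, nsmul_eq_mul]
    congr 1
    have h2 := card_filter_add_card_filter_not (s := (univ : Finset (E c))) (fun x => wt s x ≠ ω)
    rw [hcardE] at h2
    have h3 : (S.card : ℝ) + (univ.filter (fun x => ¬ wt s x ≠ ω)).card = 2 ^ c := by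
      exact_mod_cast h2
    linarith
  have habs : ∀ x, |(nz s : ℝ) - 2 * wt s x| ≤ n := by
    intro x
    rw [← F_eq]
    refine (abs_sum_le_sum_abs _ _).trans ?_
    calc ∑ i ∈ univ.filter (fun i => s i ≠ 0), |chi x (s i)| = (nz s : ℝ) := by
          rw [sum_congr rfl fun i _ => abs_chi x (s i), sum_const, nsmul_eq_mul, mul_one]
          rfl
      _ ≤ n := hnz
  set τ : ℝ := (nz s : ℝ) - 2 * ω with hτd
  have hτ1 : |τ| * 2 ^ c ≤ 2 * n * S.card := by
    have h1 := hsplit id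
    simp only [id] at h1
    rw [hF1] at h1
    have h2 : |∑ x ∈ S, ((nz s : ℝ) - 2 * wt s x)| ≤ n * S.card := by
      refine (abs_sum_le_sum_abs _ _).trans ?_
      calc ∑ x ∈ S, |(nz s : ℝ) - 2 * wt s x| ≤ ∑ x ∈ S, (n : ℝ) := sum_le_sum fun x _ => habs x
        _ = n * S.card := by rw [sum_const, nsmul_eq_mul, mul_comm]
    have h3 : (2 ^ c - (S.card : ℝ)) * τ = -∑ x ∈ S, ((nz s : ℝ) - 2 * wt s x) := by linarith
    have h4 : (2 ^ c - (S.card : ℝ)) * |τ| ≤ n * S.card := by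
      have h5 : 0 ≤ (2 : ℝ) ^ c - S.card := by linarith
      rw [← abs_of_nonneg h5, ← abs_mul, h3, abs_neg]
      exact h2
    have h6 : 0 ≤ |τ| := abs_nonneg _
    nlinarith
  have hτ2 : τ ^ 2 * 2 ≤ n2 s := by
    have h1 : (|τ| * 2 ^ c) ^ 2 ≤ (2 * n * S.card) ^ 2 := by
      have h0 : 0 ≤ |τ| * 2 ^ c := by positivity
      nlinarith
    have h2 : (|τ| * 2 ^ c) ^ 2 = τ ^ 2 * (2 ^ c * 2 ^ c) := by rw [mul_pow, sq_abs]; ring
    rw [h2] at h1
    have h3 : (2 * (n : ℝ) * S.card) ^ 2 ≤ 4 * (K : ℝ) ^ 2 * S.card * (S.card * D ^ 2) := by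
      have h4 : (n : ℝ) ^ 2 ≤ (K * D) ^ 2 := by nlinarith
      have e1 : (2 * (n : ℝ) * S.card) ^ 2 = 4 * (S.card : ℝ) ^ 2 * (n : ℝ) ^ 2 := by ring
      have e2 : 4 * (K : ℝ) ^ 2 * S.card * (S.card * D ^ 2) =
          4 * (S.card : ℝ) ^ 2 * ((K : ℝ) * D) ^ 2 := by ring
      rw [e1, e2]
      exact mul_le_mul_of_nonneg_left h4 (by positivity)
    have h5 : 4 * (K : ℝ) ^ 2 * S.card * (S.card * D ^ 2) ≤
        4 * (K : ℝ) ^ 2 * S.card * (n2 s * 2 ^ c) :=
      mul_le_mul_of_nonneg_left hS1 (by positivity)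
    have h6 : 4 * (K : ℝ) ^ 2 * S.card * ((n2 s : ℝ) * 2 ^ c) * 2 ≤
        (2 : ℝ) ^ c * ((n2 s : ℝ) * 2 ^ c) := by
      have e1 : 4 * (K : ℝ) ^ 2 * S.card * ((n2 s : ℝ) * 2 ^ c) * 2 =
            (8 * (K : ℝ) ^ 2 * S.card) * ((n2 s : ℝ) * 2 ^ c) := by ring
      rw [e1]
      exact mul_le_mul_of_nonneg_right hSK (by positivity)
    have h7 : ((2 : ℝ) ^ c * 2 ^ c) * (τ ^ 2 * 2) ≤ ((2 : ℝ) ^ c * 2 ^ c) * (n2 s : ℝ) := by
      have e1 : ((2 : ℝ) ^ c * 2 ^ c) * (τ ^ 2 * 2) = τ ^ 2 * (2 ^ c * 2 ^ c) * 2 := by ring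
      have e2 : ((2 : ℝ) ^ c * 2 ^ c) * (n2 s : ℝ) = (2 : ℝ) ^ c * ((n2 s : ℝ) * 2 ^ c) := by ring
      rw [e1, e2]
      linarith
    exact le_of_mul_le_mul_left h7 (by positivity)
  have h5 : (n2 s : ℝ) * 2 ^ c ≤ 2 * n ^ 2 * S.card := by
    have h1 := hsplit (fun t => t ^ 2)
    rw [hF2] at h1
    have h2 : ∑ x ∈ S, ((nz s : ℝ) - 2 * wt s x) ^ 2 ≤ (n : ℝ) ^ 2 * (S.card : ℝ) := by
      calc ∑ x ∈ S, ((nz s : ℝ) - 2 * wt s x) ^ 2 ≤ ∑ x ∈ S, (n : ℝ) ^ 2 := by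
            refine sum_le_sum fun x _ => ?_
            rw [← sq_abs ((nz s : ℝ) - 2 * wt s x)]
            have h3 := habs x
            have h4 := abs_nonneg ((nz s : ℝ) - 2 * wt s x)
            nlinarith
        _ = (n : ℝ) ^ 2 * (S.card : ℝ) := by rw [sum_const, nsmul_eq_mul, mul_comm]
    have h3 : (2 ^ c - (S.card : ℝ)) * τ ^ 2 ≤ 2 ^ c * τ ^ 2 := by
      apply mul_le_mul_of_nonneg_right _ (sq_nonneg _)
      linarith
    have h4 : 2 ^ c * (τ ^ 2 * 2) ≤ 2 ^ c * (n2 s : ℝ) := mul_le_mul_of_nonneg_left hτ2 hNpos.le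
    linarith
  refine ⟨ω, ?_, ?_, hτ1, hS1, h5, hS8', hlast⟩
  · -- nonzero
    intro h0
    obtain ⟨x0, hx0⟩ := hne
    have hinj : (univ.filter (fun x => ¬ wt s x ≠ ω)).card ≤ S.card := by
      refine card_le_card_of_injOn (fun x => x + x0) ?_ ?_
      · intro x hx
        have hx' := mem_coe.1 hx
        rw [mem_filter, not_not, h0] at hx'
        refine mem_coe.2 (mem_filter.2 ⟨mem_univ _, ?_⟩)
        rw [h0]
        have h1 : ∀ i, x ⬝ᵥ s i = 0 := by
          intro i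
          by_contra hi
          have h2 := hx'.2
          unfold wt at h2
          rw [card_eq_zero, filter_eq_empty_iff] at h2
          exact h2 (mem_univ i) hi
        have h2 : wt s (x + x0) = wt s x0 := by
          unfold wt
          congr 1
          ext i
          simp only [mem_filter, mem_univ, true_and]
          rw [add_dotProduct, h1 i, zero_add]
        change wt s (x + x0) ≠ 0
        rw [h2]
        exact hx0
      · intro x _ y _ hxy
        exact add_right_cancel hxy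
    have h2 := card_filter_add_card_filter_not (s := (univ : Finset (E c))) (fun x => wt s x ≠ ω)
    rw [hcardE] at h2
    have h3 : S.card + (univ.filter (fun x => ¬ wt s x ≠ ω)).card = 2 ^ c := h2
    have h4 : 0 < 2 ^ c := by positivity
    omega
  · -- attained
    by_contra hno
    push Not at hno
    have h1 : S = univ := filter_true_of_mem fun x _ => hno x
    rw [h1, hcardE] at hS8'
    have h4 : 0 < 2 ^ c := by positivity
    omega

end Pool.Agent.Helper51.UP
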