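import Pool.Agent.Helper9.UP.StC
import Pool.Agent.Helper40.UP.M_PO

/-!
# Project UP, module CM: the main sum, case A
-/

set_option autoImplicit false

noncomputable section

namespace Pool.Agent.Helper51.UP

open Finset Polynomial
open Pool.Agent.Helper9.UP
open Pool.Agent.Helper9.TW (gm StC9)

theorem cm_pos_le (s : Finset ℕ) (e : ℕ → ℝ) (h : ∀ j ∈ s, 0 < e j) :
    ∃ ε : ℝ, 0 < ε ∧ ∀ j ∈ s, ε ≤ e j := by
  rcases s.eq_empty_or_nonempty with rfl | hne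
  · exact ⟨1, one_pos, by simp⟩
  · obtain ⟨j, hj, hm⟩ := s.exists_min_image e hne
    exact ⟨e j, h j hj, hm⟩

theorem cm_main (V t0 t1 μm μp S0 η σ κ m p s : ℝ) (hV0 : 0 ≤ V) (T1 : V ≤ t0)
    (T2 : t0 ≤ (1 + 1 / 1000) * V) (T3 : (1 - 1 / 1000) * V ≤ t1) (T4 : t1 ≤ V)
    (hp0 : 0 ≤ p) (hs0 : 0 ≤ s) (hη : η ≤ σ) (hσ : σ = κ / 300) (hκ : 0 < κ)
    (hpos : 1 / 50 * κ ≤ μm - 2 / 1000 * μp - 1001 / 1000 * S0)
    (lm : μm - η ≤ m) (lp : p ≤ μp + η) (lS : s ≤ S0 + σ) :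
    V * (κ / 100) ≤ t0 * m - (t0 - t1) * p - t0 * s := by
  have hm0 : 0 ≤ m := by linarith
  have h1 : V * m ≤ t0 * m := mul_le_mul_of_nonneg_right T1 hm0
  have h2 : (t0 - t1) * p ≤ (2 / 1000 * V) * p := mul_le_mul_of_nonneg_right (by linarith) hp0
  have h3 : t0 * s ≤ ((1 + 1 / 1000) * V) * s := mul_le_mul_of_nonneg_right T2 hs0
  have h4 : κ / 100 ≤ m - 2 / 1000 * p - 1001 / 1000 * s := by linarith
  have h5 := mul_le_mul_of_nonneg_left h4 hV0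
  have h6 : V * (m - 2 / 1000 * p - 1001 / 1000 * s) =
      V * m - (2 / 1000 * V) * p - ((1 + 1 / 1000) * V) * s := by ring
  linarith

theorem cm_fin (X t0 t1 m p s A B C D E Q Cs σ M c2 b1 b2 : ℝ)
    (e0 : -(b1 * E) ≤ A - X * t0 * m) (e1 : -(b2 * E) ≤ B - X * t1 * p)
    (e2 : C - X * t0 * p ≤ b2 * E)
    (e3 : D ≤ X * t0 * s + σ * E) (hCs : Cs = b1 + 2 * b2 + σ) (hgr : Cs * E = c2)
    (hM : M ≤ X * (t0 * m - (t0 - t1) * p - t0 * s)) (hQ : Q = M - c2) :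
    Q ≤ A + B - C - D := by
  have h1 : Cs * E = b1 * E + 2 * (b2 * E) + σ * E := by rw [hCs]; ring
  have h2 : X * (t0 * m - (t0 - t1) * p - t0 * s) =
      X * t0 * m - X * t0 * p + X * t1 * p - X * t0 * s := by ring
  linarith

theorem cm_reg_mono {ε ε' X ω : ℝ} {j0 Nm : ℕ} {g : ℕ → ℝ} (h : Reg ε X ω j0 Nm g)
    (hε : ε ≤ ε') : Reg ε' X ω j0 Nm g :=
  ⟨h.1, h.2.1, fun i h1 h2 => (h.2.2 i h1 h2).trans hε⟩

/-- the product of the indicator functions -/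
theorem cm_prod_ind (Q : Finset ℕ) (n : ℕ) (P : Prop) [Decidable P]
    (hP : P ↔ ∀ p ∈ Q, ¬ p ∣ n) :
    ∏ p ∈ Q, (1 - (if p ∣ n then (1 : ℝ) else 0)) = if P then 1 else 0 := by
  classical
  split_ifs with h
  · refine Finset.prod_eq_one fun p hp => ?_
    rw [if_neg (hP.mp h p hp)]; norm_num
  · rw [hP] at h
    push Not at h
    obtain ⟨p, hp, hd⟩ := h
    refine Finset.prod_eq_zero hp ?_
    rw [if_pos hd]; norm_num

theorem cm_tw (F : Finset (Finset ℕ)) (n : ℕ) :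
    MW F (fun p => if p ∣ n then (1 : ℝ) else 0) = tw F n := by
  unfold MW tw
  refine Finset.sum_congr rfl fun T _ => ?_
  congr 1

theorem hCM (hC9 : StC9) (hCB : StCB) (hWB : StWB) (hNN : StNN) : StCM := by
  classical
  intro K u j0 Nm ω μm μp μ hK hu hj0 hj0K hω hNm hLo hUp hUj hpos
  have hu' : (0 : ℝ) < u := by exact_mod_cast (show 0 < u by omega)
  have hK' : (2 : ℝ) ≤ K := by exact_mod_cast hK
  have hj0' : (0 : ℝ) < j0 := by exact_mod_cast (show 0 < j0 by omega)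
  have hω0 : 0 < ω := by rw [hω]; positivity
  have hKu : 1 ≤ K * u := Nat.mul_pos (by omega) hu
  set κ : ℝ := (j0 : ℝ) / (K * u) with hκd
  have hκ : 0 < κ := by rw [hκd]; positivity
  set x : ℝ := (K : ℝ) / (K + 1) with hxd
  have hx0 : 0 ≤ x := by rw [hxd]; positivity
  have hx1 : x ≤ 1 := by rw [hxd, div_le_one (by positivity)]; linarith
  have hlev : ((4 * K * u : ℕ) : ℝ) * ω = x := by
    rw [hω, hxd]; push_cast; field_simp
  set s : Finset ℕ := Ico (K * u) (4 * K * u - 4 * u) with hs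
  have hsj : ∀ j ∈ s, K * u ≤ j ∧ j + 1 ≤ 4 * K * u ∧ j ≤ Nm := by
    intro j hj
    have h := Finset.mem_Ico.mp hj
    have h1 : 4 * K * u ≤ 4 * (K + 1) * u := by nlinarith
    refine ⟨h.1, by omega, ?_⟩
    have : j ≤ 4 * K * u := by omega
    exact (this.trans h1).trans hNm
  have hlevj : ∀ j ∈ s, ((4 * K * u - (j + 1) : ℕ) : ℝ) * ω + ((j : ℝ) + 1) * ω = x := by
    intro j hj
    have h := (hsj j hj).2.1
    rw [Nat.cast_sub h]
    push_cast at hlev ⊢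
    linear_combination hlev
  have hlevj0 : ∀ j ∈ s, 0 ≤ ((4 * K * u - (j + 1) : ℕ) : ℝ) * ω ∧
      ((4 * K * u - (j + 1) : ℕ) : ℝ) * ω ≤ 2 := by
    intro j hj
    have h := hlevj j hj
    have h1 : 0 ≤ ((j : ℝ) + 1) * ω := by positivity
    refine ⟨by positivity, by linarith⟩
  obtain ⟨B1, hB1, H1⟩ := hLo
  obtain ⟨B2, hB2, H2⟩ := hUp
  unfold UpP at hUj
  choose! Bj hBj Hj using hUj
  set c : ℕ → ℝ := fun j => 7 / 10 * (1 - (j : ℝ) * ω) with hc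
  have hcn : ∀ j ∈ s, 0 ≤ c j := by
    intro j hj
    have h := hlevj j hj
    have h2 := (hlevj0 j hj).1
    have h3 : (j : ℝ) * ω ≤ 1 := by
      have : (j : ℝ) * ω ≤ ((j : ℝ) + 1) * ω := by
        have := hω0.le
        nlinarith
      linarith
    rw [hc]
    simp only
    linarith
  set S0 : ℝ := ∑ j ∈ s, c j * (gm j * μ j) with hS0
  have hgm : ∀ j ∈ s, 0 ≤ gm j := by
    intro j hj
    have h1 : 1 ≤ j := hKu.trans (hsj j hj).1
    have h2 : (0 : ℝ) < j := by exact_mod_cast (show 0 < j by omega)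
    unfold gm
    apply Real.log_nonneg
    rw [le_div_iff₀ h2]
    linarith
  have hpos' : 1 / 50 * κ ≤ μm - 2 / 1000 * μp - 1001 / 1000 * S0 := by
    have e : 1001 / 1000 * (7 / 10 : ℝ) * ∑ j ∈ s, gm j * (1 - (j : ℝ) * ω) * μ j =
        1001 / 1000 * S0 := by
      rw [hS0, Finset.mul_sum, Finset.mul_sum]
      refine Finset.sum_congr rfl fun j _ => ?_
      rw [hc]; ring
    rw [e] at hpos
    exact hpos
  set σ : ℝ := κ / 300 with hσ
  have hσ0 : 0 < σ := by positivity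
  set Cg : ℝ := ∑ j ∈ s, c j * gm j with hCg
  set Cm : ℝ := ∑ j ∈ s, c j * |μ j| with hCm
  set Cc : ℝ := ∑ j ∈ s, c j with hCc
  have hCg0 : 0 ≤ Cg := Finset.sum_nonneg fun j hj => mul_nonneg (hcn j hj) (hgm j hj)
  have hCm0 : 0 ≤ Cm := Finset.sum_nonneg fun j hj => mul_nonneg (hcn j hj) (abs_nonneg _)
  have hCc0 : 0 ≤ Cc := Finset.sum_nonneg hcn
  set η : ℝ := σ / (3 * (Cg + 1)) with hη
  have hη0 : 0 < η := by positivity
  have hησ : η ≤ σ := by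
    rw [hη]
    exact div_le_self hσ0.le (by linarith)
  have hη1 : η * Cg ≤ σ / 3 := by
    rw [hη, div_mul_eq_mul_div, div_le_iff₀ (by positivity)]
    nlinarith
  obtain ⟨ε1, hε1, W1⟩ := H1 η hη0
  obtain ⟨ε2, hε2, W2⟩ := H2 η hη0
  have Hj' : ∀ j ∈ s, ∃ ε : ℝ, 0 < ε ∧ ∀ (X : ℝ) (g : ℕ → ℝ), Reg ε X ω j0 Nm g →
    ∃ l : ℕ → ℝ, Wt X ω j0 (K * u) (((4 * K * u - (j + 1) : ℕ) : ℝ) * ω) (Bj j) l ∧
      (∀ n : ℕ, 1 ≤ n → ind X ω j0 (K * u) n ≤ ∑ q ∈ n.divisors, l q) ∧ ms X g l ≤ μ j + η :=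
    fun j hj => Hj j hj η hη0
  choose! εj hεj Wj using Hj'
  obtain ⟨ε3, hε3, hε3'⟩ := cm_pos_le s εj hεj
  set ε4 : ℝ := σ / (3 * (Cm + η * Cc + 1)) with hε4
  have hε40 : 0 < ε4 := by positivity
  have hε41 : ε4 * Cm + ε4 * (η * Cc) ≤ σ / 3 := by
    rw [hε4, ← mul_add, div_mul_eq_mul_div, div_le_iff₀ (by positivity)]
    have : 0 ≤ η * Cc := by positivity
    nlinarith
  set ε : ℝ := min (min ε1 ε2) (min ε3 ε4) with hε
  have hε0 : 0 < ε := lt_min (lt_min hε1 hε2) (lt_min hε3 hε40)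
  have hεε1 : ε ≤ ε1 := (min_le_left _ _).trans (min_le_left _ _)
  have hεε2 : ε ≤ ε2 := (min_le_left _ _).trans (min_le_right _ _)
  have hεε3 : ε ≤ ε3 := (min_le_right _ _).trans (min_le_left _ _)
  have hεε4 : ε ≤ ε4 := (min_le_right _ _).trans (min_le_right _ _)
  have hσB : 0 ≤ ∑ j ∈ s, c j * Bj j :=
    Finset.sum_nonneg fun j hj => mul_nonneg (hcn j hj) (hBj j hj)
  refine ⟨ε, B1 + 2 * B2 + ∑ j ∈ s, c j * Bj j, hε0, by positivity, ?_⟩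
  intro Λ lam E f m0 N w F0 F1 hAdm hlc hm0 hN hw hdN hFL hE hReg
  obtain ⟨l1, w1, d1, v1⟩ := W1 N (gf f) (cm_reg_mono hReg hεε1)
  obtain ⟨l2, w2, d2, v2⟩ := W2 N (gf f) (cm_reg_mono hReg hεε2)
  have Wj' : ∀ j ∈ s, ∃ l : ℕ → ℝ,
      Wt N ω j0 (K * u) (((4 * K * u - (j + 1) : ℕ) : ℝ) * ω) (Bj j) l ∧
      (∀ n : ℕ, 1 ≤ n → ind N ω j0 (K * u) n ≤ ∑ q ∈ n.divisors, l q) ∧
      ms N (gf f) l ≤ μ j + η :=
    fun j hj => Wj j hj N (gf f) (cm_reg_mono hReg (hεε3.trans (hε3' j hj)))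
  choose! lj wj dj vj using Wj'
  have hN2 : (2 : ℝ) ≤ N := hReg.1
  have hg01 := hReg.2.1
  have hindn : ∀ n : ℕ, 0 ≤ ind N ω j0 (K * u) n ∧ ind N ω j0 (K * u) n ≤ 1 := by
    intro n; unfold ind; split_ifs <;> norm_num
  -- main terms
  set G : ℕ → ℝ := fun j => ∑ p ∈ bx N ω j, gf f p with hG
  set mj : ℕ → ℝ := fun j => ms N (gf f) (lj j) with hmj
  have hG0 : ∀ j, 0 ≤ G j := fun j => Finset.sum_nonneg fun p _ => (hg01 p).1
  have hG1 : ∀ j ∈ s, G j ≤ gm j + ε := by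
    intro j hj
    have h := (abs_le.mp (hReg.2.2 j (hj0K.trans (hsj j hj).1) (hsj j hj).2.2)).2
    rw [hG]; simp only; linarith
  have hmj0 : ∀ j ∈ s, 0 ≤ mj j := by
    intro j hj
    exact hNN N ω _ (Bj j) j0 (K * u) (gf f) (lj j) hN2 (hlevj0 j hj).2 (wj j hj)
      (fun n hn => (hindn n).1.trans (dj j hj n hn)) hg01
  have hmj1 : ∀ j ∈ s, mj j ≤ μ j + η := fun j hj => vj j hj
  have hms2 : 0 ≤ ms N (gf f) l2 :=
    hNN N ω _ B2 j0 (K * u) (gf f) l2 hN2 (by rw [hlev]; linarith) w2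
      (fun n hn => (hindn n).1.trans (d2 n hn)) hg01
  set sS : ℝ := ∑ j ∈ s, c j * (G j * mj j) with hsS
  have hsS0 : 0 ≤ sS := Finset.sum_nonneg fun j hj =>
    mul_nonneg (hcn j hj) (mul_nonneg (hG0 j) (hmj0 j hj))
  have hsS1 : sS ≤ S0 + σ := by
    have h1 : sS ≤ ∑ j ∈ s, (c j * (gm j * μ j) + η * (c j * gm j) + ε * (c j * |μ j|) +
        ε * (η * c j)) := by
      refine Finset.sum_le_sum fun j hj => ?_
      have hc0 := hcn j hj
      have h2 : G j * mj j ≤ (gm j + ε) * (μ j + η) :=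
        mul_le_mul (hG1 j hj) (hmj1 j hj) (hmj0 j hj) ((hG0 j).trans (hG1 j hj))
      have h3 : (gm j + ε) * (μ j + η) ≤ gm j * μ j + η * gm j + ε * |μ j| + ε * η := by
        have h4 : ε * μ j ≤ ε * |μ j| := mul_le_mul_of_nonneg_left (le_abs_self _) hε0.le
        nlinarith
      have h5 := mul_le_mul_of_nonneg_left (h2.trans h3) hc0
      have h6 : c j * (gm j * μ j + η * gm j + ε * |μ j| + ε * η) =
        c j * (gm j * μ j) + η * (c j * gm j) + ε * (c j * |μ j|) + ε * (η * c j) := by ring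
      linarith
    rw [Finset.sum_add_distrib, Finset.sum_add_distrib, Finset.sum_add_distrib,
      ← Finset.mul_sum, ← Finset.mul_sum, ← Finset.mul_sum, ← Finset.mul_sum] at h1
    have h7 : ε * Cm + ε * (η * Cc) ≤ ε4 * Cm + ε4 * (η * Cc) := by
      have a1 : ε * Cm ≤ ε4 * Cm := mul_le_mul_of_nonneg_right hεε4 hCm0
      have a2 : ε * (η * Cc) ≤ ε4 * (η * Cc) :=
        mul_le_mul_of_nonneg_right hεε4 (mul_nonneg hη0.le hCc0)
      linarith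
    rw [← hS0, ← hCg, ← hCm, ← hCc] at h1
    linarith
  -- the sieve product
  set V : ℝ := VV f w with hV
  have hV0 : 0 ≤ V := by
    rw [hV]; unfold VV
    exact Finset.prod_nonneg fun p _ => by linarith [(hg01 p).2]
  have T1 : V ≤ MW F0 (gf f) := hFL.up (gf f) hg01
  have T4 : MW F1 (gf f) ≤ V := hFL.lo (gf f) hg01
  have main := cm_main V (MW F0 (gf f)) (MW F1 (gf f)) μm μp S0 η σ κ (ms N (gf f) l1)
    (ms N (gf f) l2) sS hV0 T1 hFL.main0 hFL.main1 T4 hms2 hsS0 hησ hσ hκ hpos' v1 v2 hsS1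
  -- the error
  set Er' : ℝ := Real.exp lam * (N : ℝ) ^ x * Real.exp (2 * E) with hEr
  have hN0 : (0 : ℝ) < N := by linarith
  have hN1 : (1 : ℝ) ≤ N := by linarith
  set y : ℝ := (N : ℝ) ^ ((j0 : ℝ) * ω) with hy
  have hy0 : 0 < y := Real.rpow_pos_of_pos hN0 _
  have hwy : (w : ℝ) < y := by
    have h1 : 1 ≤ ⌈y⌉₊ := Nat.one_le_ceil_iff.mpr hy0
    have h2 := Nat.ceil_lt_add_one hy0.le
    rw [hw, Nat.cast_sub h1]
    push_cast
    linarith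
  have hj0ω : (j0 : ℝ) * ω ≤ 1 := by
    have h1 : (j0 : ℝ) ≤ ((4 * K * u : ℕ) : ℝ) := by
      have : j0 ≤ 4 * K * u := by nlinarith
      exact_mod_cast this
    have h2 := mul_le_mul_of_nonneg_right h1 hω0.le
    rw [hlev] at h2
    linarith
  have hN2' : (N : ℝ) ≤ ((N ^ 2 : ℕ) : ℝ) := by
    push_cast
    nlinarith
  have hyN : y ≤ N := by
    rw [hy]
    calc (N : ℝ) ^ ((j0 : ℝ) * ω) ≤ (N : ℝ) ^ (1 : ℝ) :=
          Real.rpow_le_rpow_of_exponent_le hN1 hj0ω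
      _ = N := Real.rpow_one _
  have hwY : w ≤ N ^ 2 := by
    have : (w : ℝ) ≤ ((N ^ 2 : ℕ) : ℝ) := (hwy.le.trans hyN).trans hN2'
    exact_mod_cast this
  have hNY : (N : ℝ) ^ x ≤ ((N ^ 2 : ℕ) : ℝ) := by
    refine le_trans ?_ hN2'
    calc (N : ℝ) ^ x ≤ (N : ℝ) ^ (1 : ℝ) := Real.rpow_le_rpow_of_exponent_le hN1 hx1
      _ = N := Real.rpow_one _
  have hF0 : ∀ T ∈ F0, T ⊆ Qf f w ∧ ∑ p ∈ T, Real.log p ≤ lam := fun T hT =>
    hFL.sub T (Finset.mem_union_left _ hT)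
  have hF1 : ∀ T ∈ F1, T ⊆ Qf f w ∧ ∑ p ∈ T, Real.log p ≤ lam := fun T hT =>
    hFL.sub T (Finset.mem_union_right _ hT)
  rw [hlev] at w1 w2
  have hcb : ∀ (F : Finset (Finset ℕ)) (B : ℝ) (j : ℕ) (l : ℕ → ℝ),
      (∀ T ∈ F, T ⊆ Qf f w ∧ ∑ p ∈ T, Real.log p ≤ lam) → Wt N ω j0 j x B l → 0 ≤ B →
      |∑ m ∈ AA f m0 N, tw F (val f m) * ∑ q ∈ (val f m).divisors, l q -
        (N : ℝ) / PM f * MW F (gf f) * ms N (gf f) l| ≤ B * Er' := by
    intro F B j l hF hW hB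
    have h := hCB Λ ω x B lam E f m0 N w (N ^ 2) j0 j F l hAdm hlc hm0 hN hF hwy hdN hω0 hx0
      (by linarith) hwY hNY hE hW hB
    refine h.trans (le_of_eq ?_)
    rw [hEr]; ring
  have e0 := abs_le.mp (hcb F0 B1 (K * u) l1 hF0 w1 hB1)
  have e1 := abs_le.mp (hcb F1 B2 (K * u) l2 hF1 w2 hB2)
  have e2 := abs_le.mp (hcb F0 B2 (K * u) l2 hF0 w2 hB2)
  set X : ℝ := (N : ℝ) / PM f with hX
  have hX0 : 0 ≤ X := by rw [hX]; positivity
  have hwb : ∀ j ∈ s, Wt N ω j0 (j + 1) x (Bj j) (bm N ω j (lj j)) ∧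
      ms N (gf f) (bm N ω j (lj j)) = G j * mj j ∧
      ∀ n : ℕ, 1 ≤ n → ∑ q ∈ n.divisors, bm N ω j (lj j) q =
        (ej N ω j n : ℝ) * ∑ q ∈ n.divisors, lj j q := by
    intro j hj
    have h := hWB N ω _ (Bj j) j0 (K * u) j (gf f) (lj j) hN2 hω0 (hlevj0 j hj).1 (hBj j hj)
      hj0K (hsj j hj).1 (wj j hj)
    rw [hlevj j hj] at h
    exact ⟨h.1, h.2.1 (by linarith), h.2.2⟩
  have hval : ∀ m ∈ AA f m0 N, 1 ≤ val f m := by
    intro m hm
    unfold AA at hm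
    have h1 := (Finset.mem_Ioc.mp (Finset.mem_filter.mp hm).1).1
    have h2 : (N : ℝ) ≤ m := by exact_mod_cast h1.le
    have h3 := Pool.Agent.Helper40.UP.hPO Λ f hAdm hlc m (hN.trans h2)
    have h4 := h3.1
    rw [← h3.2.1] at h4
    have : 1 < val f m := by exact_mod_cast h4
    omega
  -- pointwise inequality
  have hpt : ∀ m ∈ AA f m0 N,
      tw F0 (val f m) * (∑ q ∈ (val f m).divisors, l1 q) +
        tw F1 (val f m) * (∑ q ∈ (val f m).divisors, l2 q) -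
        tw F0 (val f m) * (∑ q ∈ (val f m).divisors, l2 q) -
        ∑ j ∈ s, c j * (tw F0 (val f m) *
          (∑ q ∈ (val f m).divisors, bm N ω j (lj j) q)) ≤
      (if ∀ p ∈ Qf f w, ¬ p ∣ val f m then (1 : ℝ) else 0) *
        ind N ω j0 (K * u) (val f m) *
        (1 - ∑ j ∈ s, c j * (ej N ω j (val f m) : ℝ)) := by
    intro m hm
    have hn := hval m hm
    set n : ℕ := val f m with hnd
    have hh : ∀ p : ℕ, 0 ≤ (fun p : ℕ => if p ∣ n then (1 : ℝ) else 0) p ∧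
        (fun p : ℕ => if p ∣ n then (1 : ℝ) else 0) p ≤ 1 := by
      intro p
      by_cases h : p ∣ n <;> simp [h]
    have hlo := hFL.lo _ hh
    have hup := hFL.up _ hh
    rw [cm_tw, cm_prod_ind (Qf f w) n (∀ p ∈ Qf f w, ¬ p ∣ n) Iff.rfl] at hlo hup
    refine hC9 _ (ind N ω j0 (K * u) n) (tw F0 n) (tw F1 n)
      (∑ q ∈ n.divisors, l2 q) (∑ q ∈ n.divisors, l1 q) s (fun j => (ej N ω j n : ℝ))
      (fun j => ∑ q ∈ n.divisors, bm N ω j (lj j) q) c ?_ ?_ (hindn n).1 (hindn n).2 hlo hup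
      (d1 n hn) (d2 n hn) (fun j hj => ⟨hcn j hj, Nat.cast_nonneg _⟩) (fun j hj => ?_)
    · split_ifs <;> norm_num
    · split_ifs <;> norm_num
    · rw [(hwb j hj).2.2 n hn, mul_comm]
      exact mul_le_mul_of_nonneg_left (dj j hj n hn) (Nat.cast_nonneg _)
  refine le_trans ?_ (Finset.sum_le_sum hpt)
  rw [Finset.sum_sub_distrib, Finset.sum_sub_distrib, Finset.sum_add_distrib, Finset.sum_comm]
  have e3 : ∑ j ∈ s, ∑ m ∈ AA f m0 N, c j * (tw F0 (val f m) *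
      (∑ q ∈ (val f m).divisors, bm N ω j (lj j) q)) ≤
      X * MW F0 (gf f) * sS + (∑ j ∈ s, c j * Bj j) * Er' := by
    rw [hsS, Finset.mul_sum, Finset.sum_mul, ← Finset.sum_add_distrib]
    refine Finset.sum_le_sum fun j hj => ?_
    rw [← Finset.mul_sum]
    have h := (abs_le.mp (hcb F0 (Bj j) (j + 1) (bm N ω j (lj j)) hF0 (hwb j hj).1
      (hBj j hj))).2
    rw [(hwb j hj).2.1] at h
    have h' := mul_le_mul_of_nonneg_left h (hcn j hj)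
    have e4 : c j * (∑ m ∈ AA f m0 N, tw F0 (val f m) *
        (∑ q ∈ (val f m).divisors, bm N ω j (lj j) q) - X * MW F0 (gf f) * (G j * mj j)) =
        c j * (∑ m ∈ AA f m0 N, tw F0 (val f m) *
        (∑ q ∈ (val f m).divisors, bm N ω j (lj j) q)) -
        X * MW F0 (gf f) * (c j * (G j * mj j)) := by ring
    rw [e4] at h'
    linarith
  have main2 := mul_le_mul_of_nonneg_left main hX0
  refine cm_fin X _ _ _ _ _ _ _ _ _ Er' _ _ _ _ _ B1 B2 e0.1 e1.1 e2.2 e3 rfl rfl main2 ?_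
  rw [hEr]; ring

end Pool.Agent.Helper51.UP
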