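import Pool.Agent.Helper9.UP.StS

/-!
# Project UP (MP_d466de), module VR: Abel summation and the ratio of the sieve products
-/

set_option autoImplicit false

noncomputable section

namespace Pool.Agent.Helper51.UP

open Finset Polynomial Pool.Agent.Helper9.UP

/-- `gf` at primes, zero elsewhere -/
private def gp (f : ℤ[X]) (n : ℕ) : ℝ := if n.Prime then gf f n else 0

private theorem gf_nonneg (f : ℤ[X]) (p : ℕ) : 0 ≤ gf f p := by
  unfold gf
  split_ifs
  · exact le_rfl
  · positivity

private theorem gp_nonneg (f : ℤ[X]) (n : ℕ) : 0 ≤ gp f n := by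
  unfold gp
  split_ifs
  · exact gf_nonneg f n
  · exact le_rfl

private theorem Sf_succ (f : ℤ[X]) (m : ℕ) :
    Sf f (m + 1) = Sf f m + gp f (m + 1) * Real.log ((m + 1 : ℕ) : ℝ) := by
  unfold Sf gp
  rw [sum_filter, sum_filter, sum_range_succ _ (m + 1)]
  congr 1
  split_ifs
  · rfl
  · rw [zero_mul]

private theorem VV_succ (f : ℤ[X]) (m : ℕ) : VV f (m + 1) = VV f m * (1 - gp f (m + 1)) := by
  unfold VV Qf gp
  rw [prod_filter, prod_filter]
  by_cases h : 2 * f.natDegree ≤ m
  · rw [prod_Ioc_succ_top h]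
    congr 1
    split_ifs
    · rfl
    · rw [sub_zero]
  · have h1 : Ioc (2 * f.natDegree) (m + 1) = ∅ := Ioc_eq_empty (by omega)
    have h2 : Ioc (2 * f.natDegree) m = ∅ := Ioc_eq_empty (by omega)
    have h3 : gf f (m + 1) = 0 := by
      unfold gf
      rw [if_pos (by omega)]
    rw [h1, h2, h3]
    simp

theorem hVR (hMT : StMT) (hRO : StRO) : StVR := by
  obtain ⟨C₀, Λ₀, hC₀, hΛ₀, hMT⟩ := hMT
  refine ⟨C₀, Λ₀, hC₀, ?_⟩
  intro Λ hΛ f hf w w' hw hww' hw'
  obtain ⟨hM1, _⟩ := hMT Λ hΛ f hf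
  have hΛ1 : 1 ≤ Λ := hΛ₀.trans hΛ
  have hΛ2 : 1 ≤ Λ ^ 2 := one_le_pow₀ hΛ1
  have hΛ3 : 1 ≤ Λ ^ 3 := one_le_pow₀ hΛ1
  have hΛ23 : Λ ^ 2 ≤ Λ ^ 3 := pow_le_pow_right₀ hΛ1 (by norm_num)
  set B := C₀ * Λ ^ 3 with hB
  have hBΛ : Λ ^ 3 ≤ B := le_mul_of_one_le_left (by linarith) hC₀
  have hlogw : 1 ≤ Real.log w := by linarith
  have hw0 : (0 : ℝ) < w := by
    rcases Nat.eq_zero_or_pos w with h | h
    · rw [h] at hlogw
      norm_num at hlogw
    · exact_mod_cast h
  have hwN : 0 < w := by exact_mod_cast hw0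
  -- bounds for the densities
  have hg : ∀ n : ℕ, 0 < n → gp f n ≤ Λ / n ∧ gp f n ≤ 1 / 2 := by
    intro n hn
    have hn0 : (0 : ℝ) < n := by exact_mod_cast hn
    have hpos : 0 ≤ Λ / n := by positivity
    unfold gp
    split_ifs with hp
    · unfold gf
      split_ifs with h
      · exact ⟨hpos, by norm_num⟩
      · have h1 : ((rho f n : ℕ) : ℝ) ≤ f.natDegree := by exact_mod_cast hRO Λ f hf n hp
        have h2 : (rho f n : ℝ) / n ≤ (f.natDegree : ℝ) / n :=
          div_le_div_of_nonneg_right h1 hn0.le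
        refine ⟨h2.trans (div_le_div_of_nonneg_right hf.degLe hn0.le), h2.trans ?_⟩
        rw [div_le_div_iff₀ hn0 (by norm_num)]
        have h3 : ((2 * f.natDegree : ℕ) : ℝ) ≤ n := by exact_mod_cast (not_le.1 h).le
        push_cast at h3
        linarith
    · exact ⟨hpos, by norm_num⟩
  have hVV : ∀ m : ℕ, 0 ≤ VV f m := by
    intro m
    unfold VV
    refine prod_nonneg fun p hp => ?_
    rw [Qf, mem_filter] at hp
    have h1 := (hg p hp.2.pos).2
    unfold gp at h1
    rw [if_pos hp.2] at h1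
    linarith
  -- the first induction
  have key1 : ∀ m : ℕ, w ≤ m →
      VV f w ≤ Real.exp (∑ n ∈ Ioc w m, gp f n + 2 * Λ ^ 2 * (1 / w - 1 / m)) * VV f m := by
    intro m hm
    induction m, hm using Nat.le_induction with
    | base => simp
    | succ m hm ih =>
      have hm0 : (0 : ℝ) < m := by
        have : 0 < m := by omega
        exact_mod_cast this
      obtain ⟨h1, h2⟩ := hg (m + 1) (Nat.succ_pos m)
      have h0 := gp_nonneg f (m + 1)
      set g := gp f (m + 1) with hgd
      rw [sum_Ioc_succ_top hm, VV_succ, ← hgd]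
      have hcast : ((m + 1 : ℕ) : ℝ) = (m : ℝ) + 1 := by push_cast; ring
      rw [hcast] at h1 ⊢
      have h3 : 1 ≤ Real.exp (g + 2 * g ^ 2) * (1 - g) := by
        have h4 := Real.add_one_le_exp (g + 2 * g ^ 2)
        have h5 : (g + 2 * g ^ 2 + 1) * (1 - g) ≤ Real.exp (g + 2 * g ^ 2) * (1 - g) :=
          mul_le_mul_of_nonneg_right h4 (by linarith)
        have h6 : 1 ≤ (g + 2 * g ^ 2 + 1) * (1 - g) := by nlinarith [sq_nonneg g]
        linarith
      have h7 : g ^ 2 ≤ Λ ^ 2 * (1 / m - 1 / (m + 1)) := by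
        have h8 : g ^ 2 ≤ (Λ / (m + 1)) ^ 2 := pow_le_pow_left₀ h0 h1 2
        have h9 : (1 : ℝ) / m - 1 / (m + 1) = 1 / (m * (m + 1)) := by
          field_simp
          ring
        have h10 : (1 : ℝ) / ((m + 1) * (m + 1)) ≤ 1 / (m * (m + 1)) := by
          apply one_div_le_one_div_of_le (by positivity)
          nlinarith
        have h11 : (Λ / ((m : ℝ) + 1)) ^ 2 = Λ ^ 2 * (1 / ((m + 1) * (m + 1))) := by
          field_simp
        rw [h9]
        rw [h11] at h8
        exact h8.trans (mul_le_mul_of_nonneg_left h10 (by positivity))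
      have hE := hVV m
      calc VV f w ≤ Real.exp (∑ n ∈ Ioc w m, gp f n + 2 * Λ ^ 2 * (1 / w - 1 / m)) * VV f m := ih
        _ ≤ Real.exp (∑ n ∈ Ioc w m, gp f n + 2 * Λ ^ 2 * (1 / w - 1 / m)) * VV f m *
            (Real.exp (g + 2 * g ^ 2) * (1 - g)) :=
            le_mul_of_one_le_right (mul_nonneg (Real.exp_pos _).le hE) h3
        _ = Real.exp (∑ n ∈ Ioc w m, gp f n + 2 * Λ ^ 2 * (1 / w - 1 / m) + (g + 2 * g ^ 2)) *
            (VV f m * (1 - g)) := by
            rw [Real.exp_add (∑ n ∈ Ioc w m, gp f n + 2 * Λ ^ 2 * (1 / w - 1 / m)) (g + 2 * g ^ 2)]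
            ring
        _ ≤ Real.exp (∑ n ∈ Ioc w m, gp f n + g + 2 * Λ ^ 2 * (1 / w - 1 / (m + 1))) *
            (VV f m * (1 - g)) := by
            apply mul_le_mul_of_nonneg_right _ (mul_nonneg hE (by linarith))
            apply Real.exp_le_exp.2
            linarith
  -- Abel summation
  have hlog : ∀ m : ℕ, w ≤ m → 1 ≤ Real.log m := by
    intro m hm
    have : (w : ℝ) ≤ m := by exact_mod_cast hm
    exact hlogw.trans (Real.log_le_log hw0 this)
  have key2 : ∀ m : ℕ, w ≤ m → m ≤ w' → ∑ n ∈ Ioc w m, gp f n ≤ Sf f m / Real.log m +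
      (Real.log (Real.log m) - Real.log (Real.log w)) + B * (1 / Real.log w - 1 / Real.log m) := by
    intro m hm
    induction m, hm using Nat.le_induction with
    | base =>
      intro _
      have hS : 0 ≤ Sf f w := by
        unfold Sf
        refine sum_nonneg fun p hp => mul_nonneg (gf_nonneg f p) (Real.log_natCast_nonneg p)
      have : 0 ≤ Sf f w / Real.log w := div_nonneg hS (by linarith)
      simpa using this
    | succ m hm ih =>
      intro hmw'
      have ih' := ih (by omega)
      have hlm := hlog m hm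
      have hlm1 := hlog (m + 1) (by omega)
      have hm0 : (0 : ℝ) < m := by
        have : 0 < m := by omega
        exact_mod_cast this
      have hle : Real.log m ≤ Real.log ((m + 1 : ℕ) : ℝ) := by
        apply Real.log_le_log hm0
        push_cast
        linarith
      have hS := hM1 m (by omega) (by
        refine le_trans (Real.log_le_log hm0 ?_) hw'
        have : m ≤ w' := by omega
        exact_mod_cast this)
      rw [sum_Ioc_succ_top hm, Sf_succ]
      set a := Real.log (m : ℝ) with ha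
      set b := Real.log ((m + 1 : ℕ) : ℝ) with hb
      have ha0 : 0 < a := by linarith
      have hb0 : 0 < b := by linarith
      have e1 : (Sf f m + gp f (m + 1) * b) / b = Sf f m / b + gp f (m + 1) := by
        field_simp
      rw [e1]
      have e2 : 0 ≤ 1 / a - 1 / b := sub_nonneg.2 (one_div_le_one_div_of_le ha0 hle)
      have e3 : Sf f m * (1 / a - 1 / b) ≤ (a + B) * (1 / a - 1 / b) :=
        mul_le_mul_of_nonneg_right hS e2
      have e4 : (a + B) * (1 / a - 1 / b) = (1 - a / b) + B * (1 / a - 1 / b) := by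
        field_simp
      have e5 : 1 - a / b ≤ Real.log b - Real.log a := by
        have h6 := Real.one_sub_inv_le_log_of_pos (div_pos hb0 ha0)
        rw [Real.log_div hb0.ne' ha0.ne', inv_div] at h6
        exact h6
      have e6 : Sf f m * (1 / a - 1 / b) = Sf f m / a - Sf f m / b := by ring
      have e7 : B * (1 / Real.log w - 1 / b) = B * (1 / Real.log w - 1 / a) + B * (1 / a - 1 / b) := by
        ring
      rw [e7]
      linarith
  -- conclusion
  have hlw' := hlog w' hww'
  have hw'0 : (0 : ℝ) < w' := by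
    have : 0 < w' := by omega
    exact_mod_cast this
  have hle : Real.log w ≤ Real.log w' := Real.log_le_log hw0 (by exact_mod_cast hww')
  have hS := hM1 w' (by omega) hw'
  have hT := key2 w' hww' le_rfl
  have hT2 : ∑ n ∈ Ioc w w', gp f n ≤ 3 + (Real.log (Real.log w') - Real.log (Real.log w)) := by
    have f1 : Sf f w' / Real.log w' ≤ 2 := by
      rw [div_le_iff₀ (by linarith)]
      linarith
    have f2 : B * (1 / Real.log w - 1 / Real.log w') ≤ 1 := by
      have f3 : B * (1 / Real.log w) ≤ 1 := by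
        rw [mul_one_div, div_le_one (by linarith)]
        exact hw
      have f4 : 0 ≤ B * (1 / Real.log w') := mul_nonneg (by linarith) (by positivity)
      rw [mul_sub]
      linarith
    linarith
  have hU : 2 * Λ ^ 2 * (1 / w - 1 / w') ≤ (1 : ℝ) := by
    have g1 : 2 * Λ ^ 2 ≤ w := by
      have g2 : Real.exp (Λ ^ 3) ≤ w := by
        rw [← Real.le_log_iff_exp_le hw0]
        linarith
      have g3 := Real.quadratic_le_exp_of_nonneg (show (0 : ℝ) ≤ Λ ^ 3 by linarith)
      nlinarith [sq_nonneg (Λ ^ 3 - 1)]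
    have g4 : 2 * Λ ^ 2 * (1 / (w : ℝ)) ≤ 1 := by
      rw [mul_one_div, div_le_one hw0]
      exact g1
    have g5 : 0 ≤ 2 * Λ ^ 2 * (1 / (w' : ℝ)) := by positivity
    rw [mul_sub]
    linarith
  have hfin : Real.exp (∑ n ∈ Ioc w w', gp f n + 2 * Λ ^ 2 * (1 / w - 1 / w')) ≤
      Real.exp 4 * (Real.log w' / Real.log w) := by
    have h1 : Real.log w' / Real.log w =
        Real.exp (Real.log (Real.log w') - Real.log (Real.log w)) := by
      rw [Real.exp_sub, Real.exp_log (by linarith), Real.exp_log (by linarith)]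
    rw [h1, ← Real.exp_add]
    apply Real.exp_le_exp.2
    linarith
  exact (key1 w' hww').trans (mul_le_mul_of_nonneg_right hfin (hVV w'))

end Pool.Agent.Helper51.UP
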